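import Mathlib
import Pool.Agent.P.MP_4d0e60_an.Defs
import Pool.Agent.P.MP_4d0e60_an.Main

set_option autoImplicit false

namespace Pool.Agent.Results.MP_4d0e60_an.CoindConn

open Pool.Agent.P.MP_4d0e60_an

/-- Q2: a fixed-point free system whose coindex and connectivity sequences grow linearly. -/
theorem result : ∃ (X : Type) (_ : TopologicalSpace X) (_ : CompactSpace X)
    (_ : TopologicalSpace.MetrizableSpace X) (T : X ≃ₜ X), (∀ x, T x ≠ x) ∧
    ∃ C : ℝ, 0 < C ∧ ∃ p₀ : ℕ, ∀ (p : ℕ) [Fact p.Prime], p₀ ≤ p →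
      (∃ n : ℕ,
        IsGreatest {m : ℕ | EqvMap (EJoin p m) (rot p m) (Function.ptsOfPeriod T p) T} n ∧
          C * p ≤ n) ∧
      ∃ n : ℕ, NConn (Function.ptsOfPeriod T p) n ∧ C * p ≤ n := by
  obtain ⟨X, i1, i2, i3, T, hT, C, hC, p₀, h⟩ := main
  exact ⟨X, i1, i2, i3, T, hT, C, hC, p₀, fun p _ hp => (h p hp).2⟩

end Pool.Agent.Results.MP_4d0e60_an.CoindConn
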